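import Pool.Agent.Lib.MP_0b3fe5_lc.CompM
import Pool.Agent.Lib.MP_0b3fe5_lc.CompN

/-!
# Rothberger families from bounding numbers above the continuum: five of the nine cases

For `(R, I)` one of `(≤*, 𝒦)`, `(≤*, ℳ)`, `(∈*, 𝒦)`, `(∈*, ℳ)`, `(∈*, 𝒩)`: if `𝔟(R_I) > 𝔠`, then
there is a `(𝔠, 𝔟(R))`-Rothberger family for `I`.

Proof.  Let `l = 𝔟(R)`; it is regular and there are `a_i` (`i < l`) such that every set of `l` many
of them is `R`-unbounded.

1. (`exists_family`) There are at most `𝔠` functions `φ : 𝔠 → l` such that every `Γ ⊆ 𝔠` of size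
   `l` has an image of size `l` under one of them.
2. (`exists_weak`) Attach to every pair (Borel set `B` in `I`, function `φ`) its own point outside
   `B`, and let `F_α` be `a_{φ(α)}` at this point.  A bound for the family `F_α` gives sets
   `Z_α ∈ I` (`α < 𝔠`) such that the union of any `l` many of them is not in `I`.
3. (`exists_rothberger`) Apply the hypothesis once more, to functions `y ↦ f(Z_α, y)` that code
   `Z_α` relative to `y`: for null sets and `∈*` the code of `Z_α` by small clopen sets, for meager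
   sets the waiting time for the next correct guess of the code of `Z_α` by `y`.  Outside a set
   `X_α ∈ I` a bound for `f(Z_α, y)` gives a set of `I` that contains `Z_α`, so that any `l` many of
   the `X_α` cover the space.
-/

open Cardinal Set MeasureTheory

namespace Pool.Agent.Results.MP_0b3fe5_lc.FivePairs

open Pool.Agent.Lib.MP_0b3fe5_lc

theorem result (μ : Measure (ℕ → ℕ)) [IsProbabilityMeasure μ] (hμ : ∀ x, μ {x} = 0) :
    (𝔠 < bnumMod LeStar KSets → ∃ 𝓧, IsRothberger 𝔠 (bnum LeStar) KSets 𝓧) ∧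
    (𝔠 < bnumMod LeStar MeagerSets → ∃ 𝓧, IsRothberger 𝔠 (bnum LeStar) MeagerSets 𝓧) ∧
    (𝔠 < bnumMod InStar KSets → ∃ 𝓧, IsRothberger 𝔠 (bnum InStar) KSets 𝓧) ∧
    (𝔠 < bnumMod InStar MeagerSets → ∃ 𝓧, IsRothberger 𝔠 (bnum InStar) MeagerSets 𝓧) ∧
    (𝔠 < bnumMod InStar (NullSets μ) →
      ∃ 𝓧, IsRothberger 𝔠 (bnum InStar) (NullSets μ) 𝓧) := by
  have h1 : ∀ x b, LeStar x b → LeStar x ((id : (ℕ → ℕ) → ℕ → ℕ) b) := fun _ _ h => h
  have h2 : ∀ x (s : Slalom), InStar x s → LeStar x ((fun s k => (s.1 k).sup id) s) :=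
    fun x s h => h.mono fun k hk => Finset.le_sup (f := id) hk
  exact ⟨exists_rothberger goodRel_leStar goodIdl_K (comp_K id h1),
    exists_rothberger goodRel_leStar goodIdl_meager (comp_meager id h1),
    exists_rothberger goodRel_inStar goodIdl_K (comp_K _ h2),
    exists_rothberger goodRel_inStar goodIdl_meager (comp_meager _ h2),
    exists_rothberger goodRel_inStar (goodIdl_null μ hμ) (comp_null μ)⟩

end Pool.Agent.Results.MP_0b3fe5_lc.FivePairs
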