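import Pool.Agent.Lib.MP_0b3fe5_lc.NonM90

/-!
# The pair `(≠*, ℳ)`

If `μ` is a regular cardinal with `𝔟(≠*) ≤ μ < 𝔠`, then `𝔟(≠*_I) ≤ μ⁺` for every `I ⊆ ℳ`.  Hence, if
`𝔟(≠*_ℳ) > 𝔠`, then `𝔟(≠*) = 𝔠` and there is a `(𝔠, 𝔟(≠*))`-Rothberger family for `ℳ`, unless
`𝔟(≠*)` is singular and `𝔠 = 𝔟(≠*)⁺`.

Proof.  Let `T = μ⁺` and let `F` be a `≠*`-unbounded family of size `𝔟(≠*)`.

1. (`Onto90.exists_onto`) There are functions `f_b : T → μ` (`b ∈ T × T`) such that every `Γ ⊆ T`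
   of size `μ⁺` is mapped onto `μ` by one of them.  With injections `e_β : β → μ` and a colouring
   of the points of cofinality `μ` with stationary colour classes, `f_(β, ξ)(α)` is the colour of
   the least `η` between `α` and `β` with `e_β(η) < e_α(ξ)`.
2. (`Cantor90.main`) For `f, h ∈ F` there is a copy `P_(f, h)` of the Cantor set such that every
   meager set misses one of them.
3. (`NonM90.bnumMod_le`) Choose distinct points `x_(f, h, b)` in `P_(f, h)` and let `F_α` be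
   `a_(f_b(α))` at this point, where `μ → F, i ↦ a_i` is onto.  If `g` bounds these functions, the
   meager sets `{x : F_α(x) ≠* g(x) fails}` miss the same `P_(f, h)` for all `α` in a set `Γ` of
   size `μ⁺`, and if `f_b` maps `Γ` onto `μ`, then `g(x_(f, h, b))` bounds `F`, a contradiction.
-/

open Cardinal Set

namespace Pool.Agent.Results.MP_0b3fe5_lc.NeMeager

open Pool.Agent.Lib.MP_0b3fe5_lc Pool.Agent.Lib.MP_0b3fe5_lc.NonM90

theorem result :
    (∀ I ⊆ MeagerSets, ∀ μ : Cardinal.{0}, μ.IsRegular → bnum NeStar ≤ μ → μ < 𝔠 →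
      bnumMod NeStar I ≤ Order.succ μ) ∧
    (𝔠 < bnumMod NeStar MeagerSets →
      (bnum NeStar).IsRegular ∨ 𝔠 ≠ Order.succ (bnum NeStar) →
        bnum NeStar = 𝔠 ∧ ∃ 𝓧, IsRothberger 𝔠 (bnum NeStar) MeagerSets 𝓧) :=
  ⟨fun _ hI _ hμ h1 h2 => bnumMod_le hI hμ h1 h2,
    fun h hs => ⟨bnum_eq subset_rfl h hs, result_M h hs⟩⟩

end Pool.Agent.Results.MP_0b3fe5_lc.NeMeager
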