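import Pool.Agent.Lib.MP_0b3fe5_lc.Nine73

/-!
# Rothberger families: what a failure of Q1 entails

Q1 for the pair `(R, I)`: if `𝔟(R_I) > 𝔠`, there is a `(𝔠, 𝔟(R))`-Rothberger family for `I`.

1. If Q1 fails for one of the nine pairs, then `2^κ > 𝔠` for some `κ < 𝔠`, or `𝔟(∈*)⁺ < 𝔠 = 𝔡`.
   If it fails for any proper ideal, then `2^κ > 𝔠` for some `κ < 𝔠`, or `𝔟(∈*)⁺ < 𝔠`.  Here
   `𝔟(∈*) ≥ ℵ₁`, so for `𝔠 ≤ ℵ₂` only the first possibility remains.
2. If Q1 fails for `(≠*, 𝒦)`, then `cov(ℳ) ≤ 𝔟(≤*) < 𝔠 < 2^𝔟(≤*)`.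
3. If Q1 fails for `(≠*, 𝒩)`, then `𝔡 = 𝔠`, or `𝔟(∈*) < 𝔟(≠*)` and `2^𝔟(≠*) > 𝔠` (unless both
   `𝔟(≠*)` and `𝔠` are singular).
4. If Q1 fails for `(R, I)`, where `R` is `≤*` or `∈*`, or `≠*` if `𝔟(≠*) = 𝔟(∈*)`, then of any `𝔠`
   many functions more than `𝔟(R)` are bounded by one `b`.

Proof.  (a) `small_of_lt`: if `2^#Y ≤ 𝔠`, all functions on `Y` extend to `𝔠` many functions, so `Y`
is in `I` when `𝔟(R_I) > 𝔠`.  (b) `key`: by the perfect set lemma of `Psl27` there are sets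
`Q y h` of size `𝔠` such that for every null set `N` and all fast growing `h` almost no `Q y h`
meets `N`.  Attach to all `(y, h, ψ)` their own points of `Q y h`, where `ψ` runs through `𝔠` many
functions such that every set of size `𝔟(R)` is mapped onto an unbounded set by one of them, and let
`F_α` be `ψ(α)` at this point.  Bounds for the `F_α` give null sets `X_α` and `k(α)` in a dominating
family such that for all `y`, `h` fewer than `𝔟(R)` of the `α` with `k(α) = h` have `y ∉ X_α`.  If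
`𝔡 < 𝔠`, a fibre of `k` has at least `𝔡` members; adding `X_{j(k(α))}` to `X_α`, with `j`
injective from the dominating family to this fibre, gives the Rothberger family.  (c)
`second_round`: if every `y` is outside at most `𝔟(R)` of the sets `X_α`, a bound for the functions
that number these `α` gives the Rothberger family; this needs an unbounded sequence all of whose
large subsets are unbounded, which exists for `≠*` if `𝔟(≠*) = 𝔟(∈*)`.
-/

open Cardinal Set MeasureTheory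

namespace Pool.Agent.Results.MP_0b3fe5_lc.NinePairs

open Pool.Agent.Lib.MP_0b3fe5_lc Pool.Agent.Lib.MP_0b3fe5_lc.NonM90
open Pool.Agent.Lib.MP_0b3fe5_lc.Roth73

theorem result (μ : Measure (ℕ → ℕ)) [IsProbabilityMeasure μ] (hμ : ∀ x, μ {x} = 0) :
    ((∀ I, I = KSets ∨ I = MeagerSets ∨ I = NullSets μ →
        ¬ (QOne LeStar I ∧ QOne NeStar I ∧ QOne InStar I) →
          (∃ κ < (𝔠 : Cardinal.{0}), 𝔠 < (2 : Cardinal.{0}) ^ κ) ∨
            Order.succ (bnum InStar) < 𝔠 ∧ dnum = 𝔠) ∧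
      (∀ I, Idl I → ¬ (QOne LeStar I ∧ QOne NeStar I ∧ QOne InStar I) →
        (∃ κ < (𝔠 : Cardinal.{0}), 𝔠 < (2 : Cardinal.{0}) ^ κ) ∨
          Order.succ (bnum InStar) < 𝔠) ∧
      ℵ_ 1 ≤ bnum InStar) ∧
    (¬ QOne NeStar KSets → bnum LeStar < 𝔠 ∧ 𝔠 < (2 : Cardinal.{0}) ^ bnum LeStar ∧
      ∃ 𝓐 ⊆ MeagerSets, #𝓐 ≤ bnum LeStar ∧ ⋃₀ 𝓐 = Set.univ) ∧
    (¬ QOne NeStar (NullSets μ) → dnum = 𝔠 ∨ bnum InStar < bnum NeStar ∧
      (𝔠 < (2 : Cardinal.{0}) ^ bnum NeStar ∨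
        ¬ (bnum NeStar).IsRegular ∧ ¬ (𝔠 : Cardinal.{0}).IsRegular)) ∧
    (∀ I, Idl I → (¬ QOne LeStar I → ¬ Thin LeStar) ∧ (¬ QOne InStar I → ¬ Thin InStar) ∧
      (bnum NeStar = bnum InStar → ¬ QOne NeStar I → ¬ Thin NeStar)) := by
  have hN := idl_of_good (goodIdl_null μ hμ)
  have hP := perfectSets_null μ hμ
  refine ⟨⟨fun I hI h => ?_, fun I hI h => ?_, aleph_one_le_in⟩, fun h => ?_, fun h => ?_,
    fun I hI => ⟨fun h h1 => h (qOne_of_thin goodRel_leStar h1 hI),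
      fun h h1 => h (qOne_of_thin goodRel_inStar h1 hI),
      fun h0 h h1 => h (qOne_of_thin (goodRel_neStar h0) h1 hI)⟩⟩
  · by_contra hcon
    push Not at hcon
    obtain ⟨h1, h2⟩ := hcon
    refine h (nine μ hμ h1 ?_ I hI)
    by_contra hno
    push Not at hno
    exact h2 hno.2 (le_antisymm dnum_le hno.1)
  · by_contra hcon
    push Not at hcon
    exact h (three hI hcon.1 hcon.2)
  · have h1 : ¬ (bnum LeStar = 𝔠 ∨ (2 : Cardinal.{0}) ^ bnum LeStar ≤ 𝔠 ∨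
      ∀ 𝓐 ⊆ MeagerSets, #𝓐 ≤ bnum LeStar → ⋃₀ 𝓐 ≠ Set.univ) := fun h1 => h (ne_K h1)
    push Not at h1
    exact ⟨lt_of_le_of_ne (bnum_le goodRel_leStar) h1.1, h1.2⟩
  · by_contra hcon
    push Not at hcon
    obtain ⟨h1, h2⟩ := hcon
    refine h (ne_pair hN hP (lt_of_le_of_ne dnum_le h1) ?_)
    by_contra hno
    push Not at hno
    have h3 := h2 (lt_of_le_of_ne (bnum_in_le.trans bnum_le_ne) (Ne.symm hno.1))
    obtain ⟨h4, h5⟩ := h3
    obtain ⟨h6, h7⟩ := hno.2 h4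
    exact h7 (h5 h6)

end Pool.Agent.Results.MP_0b3fe5_lc.NinePairs
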