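import Pool.Agent.Lib.MP_0b3fe5_lc.Roth27

/-!
# The pair `(≤*, 𝒩)`

Let `𝔟 ≤ κ ≤ 𝔠`, and let `κ ≤ 𝔟⁺` or `𝔡 < κ`.  If `𝔟(≤*_𝒩) > κ`, then there is a
`(κ, 𝔟)`-Rothberger family for `𝒩`.  For `κ = 𝔠`: the question has a positive answer for the pair
`(≤*, 𝒩)`, unless `𝔟⁺ < 𝔡 = 𝔠`.

Proof.
1. (`Psl27.psl`, perfect set lemma) There are sets `Q y h` of size `𝔠` such that for every null set
   `N` there is `φ` with: if `φ ≤* h`, then the set of all `y` for which `Q y h` meets `N` is null.
2. (`Roth27.key`) Let `#T = κ`.  Attach to every `(y, h)` and every function `ϕ : T → 𝔟` of a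
   suitable family of `𝔠` functions its own point of `Q y h`, and let `F_α` be `a_(ϕ(α))` at this
   point, where all subsets of size `𝔟` of `{a_i : i < 𝔟}` are unbounded.  A bound for the `F_α`
   gives null sets `N_α` such that, for all `y` and `h`, fewer than `𝔟` of them miss `Q y h`.
   So there are functions `φ_α`, and sets `Y_α(h)`, null if `φ_α ≤* h`, such that for all `y` and
   `h` fewer than `𝔟` of the sets `Y_α(h)`, `α ∈ T`, do not contain `y`.
3. (`Roth27.of_dnum_lt`) Let `𝔡 < κ`, let `D` be a dominating family of size `𝔡`, and let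
   `k(α) ∈ D` be above `φ_α`.  More than `𝔡` many `α` have the same value `k(α) = h₀`, so there is an
   injection `j` of `D` into the set of these `α`.  The sets `Y_α(k(α)) ∪ Y_(j(k(α)))(h₀)` are as
   required: if `y` avoids such a set, then `k(α)` is one of fewer than `𝔟` members of `D`.
4. (`Roth27.of_le_succ`) Let `κ ≤ 𝔟⁺`.  If `κ` many `φ_α` are below the same `h`, take the sets
   `Y_α(h)`.  If not, a bound for the constant functions `φ_α` gives null sets `A_α` such that every
   `y` avoids at most `𝔟` of them, and a bound for functions `y ↦ a_(ψ_y(α))` with `ψ_y` injective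
   on the set of these `α` reduces this to fewer than `𝔟`.
-/

open Cardinal Set MeasureTheory

namespace Pool.Agent.Results.MP_0b3fe5_lc.NullPair

open Pool.Agent.Lib.MP_0b3fe5_lc Pool.Agent.Lib.MP_0b3fe5_lc.Roth27

theorem result (μ : Measure (ℕ → ℕ)) [IsProbabilityMeasure μ] (hμ : ∀ x, μ {x} = 0)
    (κ : Cardinal.{0}) (h1 : bnum LeStar ≤ κ) (h2 : κ ≤ 𝔠)
    (h3 : κ ≤ Order.succ (bnum LeStar) ∨ dnum < κ) (h4 : κ < bnumMod LeStar (NullSets μ)) :
    ∃ 𝓧, IsRothberger κ (bnum LeStar) (NullSets μ) 𝓧 :=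
  null_pair μ hμ h1 h2 h3 h4

end Pool.Agent.Results.MP_0b3fe5_lc.NullPair
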